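import Pool.Agent.Helper56.UG.Cv

/-!
# UG: consequences for `S(t)`: `arg_of` (size of `S`), `arg_diff_of` (differences, both signs)
-/

set_option autoImplicit false
open MeasureTheory Set Filter Topology
open Pool.Agent.Helper57.PC Pool.Agent.Helper93.UG Pool.Agent.Helper56.UG

namespace Pool.Agent.Helper49.UG

lemma zc_empty_of {I : Set ℝ} (h : ∀ g ∈ I, ¬ IsOrd g) : zc I = 0 := by
  by_contra h0
  obtain ⟨g, h1, h2⟩ := zc_pos (Nat.pos_of_ne_zero h0)
  exact h g h1 h2

/-- main term -/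
noncomputable def Mt (t : ℝ) : ℝ := t / (2 * Real.pi) * Real.log (t / (2 * Real.pi * Real.exp 1))

lemma Mt_diff {t h : ℝ} (ht : 0 < t) (hh : 0 ≤ h) :
    Mt (t + h) - Mt t ≤ h / (2 * Real.pi) * Real.log ((t + h) / (2 * Real.pi)) := by
  have hpi := Real.pi_pos
  have hth : 0 < t + h := by linarith
  have e : ∀ x : ℝ, 0 < x → Mt x = x / (2 * Real.pi) * (Real.log x - Real.log (2 * Real.pi) - 1) := by
    intro x hx
    unfold Mt
    rw [Real.log_div hx.ne' (by positivity), Real.log_mul (by positivity) (by positivity), Real.log_exp]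
    ring
  rw [e _ hth, e _ ht, Real.log_div hth.ne' (by positivity)]
  have h1 : Real.log (t + h) - Real.log t ≤ h / t := by
    rw [← Real.log_div hth.ne' ht.ne']
    have h2 := Real.log_le_sub_one_of_pos (show 0 < (t + h) / t by positivity)
    have h3 : (t + h) / t - 1 = h / t := by
      field_simp
      ring
    linarith
  have h4 : t * (Real.log (t + h) - Real.log t) ≤ h := by
    calc t * (Real.log (t + h) - Real.log t) ≤ t * (h / t) := mul_le_mul_of_nonneg_left h1 ht.le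
      _ = h := by field_simp
  have h5 : (t + h) / (2 * Real.pi) * (Real.log (t + h) - Real.log (2 * Real.pi) - 1) -
      t / (2 * Real.pi) * (Real.log t - Real.log (2 * Real.pi) - 1) =
      h / (2 * Real.pi) * (Real.log (t + h) - Real.log (2 * Real.pi)) +
        (t * (Real.log (t + h) - Real.log t) - h) / (2 * Real.pi) := by
    field_simp
    ring
  rw [h5]
  have h6 : (t * (Real.log (t + h) - Real.log t) - h) / (2 * Real.pi) ≤ 0 :=
    div_nonpos_of_nonpos_of_nonneg (by linarith) (by positivity)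
  linarith

/-- counting function -/
lemma zc_step {t h : ℝ} (ht : 0 < t) (hh : 0 ≤ h) (hord : ¬ IsOrd t) :
    (zc (Ioc 0 t) : ℝ) + zc (Ico t (t + h)) ≤ zc (Ioc 0 (t + h)) := by
  have h1 : zc (Ico t (t + h)) ≤ zc (Ioc t (t + h)) := by
    rcases eq_or_lt_of_le hh with h0 | h0
    · rw [← h0, add_zero, Ico_self, zc_empty_of (I := ∅) (by simp)]
      exact Nat.zero_le _
    · have e1 : Ico t (t + h) = {t} ∪ Ioo t (t + h) := by
        ext x
        simp only [mem_Ico, mem_union, mem_singleton_iff, mem_Ioo]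
        constructor
        · rintro ⟨a, b⟩
          rcases eq_or_lt_of_le a with a' | a'
          · left; exact a'.symm
          · right; exact ⟨a', b⟩
        · rintro (a | ⟨a, b⟩)
          · subst a
            exact ⟨le_rfl, by linarith⟩
          · exact ⟨a.le, b⟩
      rw [e1, zc_union (a := t) (b := t + h) (by simp [h0.le]) Ioo_subset_Icc_self (by
        rw [Set.disjoint_left]
        intro x hx hx2
        rw [mem_singleton_iff] at hx
        subst hx
        exact lt_irrefl _ hx2.1)]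
      rw [zc_empty_of (I := {t}) (by
        intro g hg
        rw [mem_singleton_iff] at hg
        subst hg
        exact hord), zero_add]
      exact zc_mono Ioo_subset_Ioc_self Ioc_subset_Icc_self
  have h2 : zc (Ioc 0 (t + h)) = zc (Ioc 0 t) + zc (Ioc t (t + h)) := by
    rw [← zc_union (a := 0) (b := t + h)]
    · rw [Ioc_union_Ioc_eq_Ioc ht.le (by linarith)]
    · exact fun x hx => ⟨hx.1.le, hx.2.trans (by linarith)⟩
    · exact fun x hx => ⟨(ht.trans hx.1).le, hx.2⟩
    · rw [Set.disjoint_left]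
      intro x hx hx2
      exact absurd hx.2 (not_le.2 hx2.1)
  rw [h2]
  push_cast
  have : (zc (Ico t (t + h)) : ℝ) ≤ zc (Ioc t (t + h)) := by exact_mod_cast h1
  linarith

/-- `S(t) = Ω(√(log t / log log t))` from the clusters -/
theorem arg_of (hp : Mp) : ∃ κ T₀ : ℝ, 0 < κ ∧ ∀ T : ℝ, T₀ ≤ T → ∃ t : ℝ, T ≤ t ∧ t ≤ 3 * T ∧
    κ * √(Real.log T / Real.log (Real.log T)) ≤
      |(zc (Ioc 0 t) : ℝ) - t / (2 * Real.pi) * Real.log (t / (2 * Real.pi * Real.exp 1))| := by
  obtain ⟨θ, A, c₀, c₁, T₁, hθ, hA, hc0, hc1, H⟩ := hp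
  have hpi := Real.pi_pos
  have ev : ∀ᶠ T : ℝ in atTop, c₀ ≤ c₁ * (Real.log T / Real.log (Real.log T)) ∧
      2 * Real.pi * c₁ ≤ Real.log (Real.log T) ∧ 10 ≤ T ∧ T₁ ≤ T := by
    have e1 : Tendsto (fun x : ℝ => x / Real.log x) atTop atTop := by
      have h1 : Tendsto (fun x : ℝ => Real.log x / x) atTop (𝓝 0) := by
        have := Real.isLittleO_log_id_atTop.tendsto_div_nhds_zero
        simpa using this
      have h2 : ∀ᶠ x : ℝ in atTop, Real.log x / x ∈ Ioi (0:ℝ) := by
        filter_upwards [eventually_gt_atTop (1:ℝ)] with x hx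
        exact div_pos (Real.log_pos hx) (by linarith)
      have h3 := (tendsto_nhdsWithin_iff.2 ⟨h1, h2⟩).inv_tendsto_nhdsGT_zero
      refine h3.congr fun x => ?_
      rw [Pi.inv_apply, inv_div]
    have e2 := e1.comp Real.tendsto_log_atTop
    have e3 : Tendsto (fun T : ℝ => Real.log (Real.log T)) atTop atTop := Real.tendsto_log_atTop.comp Real.tendsto_log_atTop
    filter_upwards [e2.eventually_ge_atTop (c₀ / c₁), e3.eventually_ge_atTop (2 * Real.pi * c₁), eventually_ge_atTop (10:ℝ),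
      eventually_ge_atTop T₁] with T a1 a2 a3 a4
    refine ⟨?_, a2, a3, a4⟩
    have a5 : c₀ / c₁ ≤ Real.log T / Real.log (Real.log T) := a1
    rw [div_le_iff₀ hc1] at a5
    linarith
  obtain ⟨T₀, hT₀⟩ := eventually_atTop.1 ev
  refine ⟨θ * √c₁ / 2, T₀, by positivity, fun T hT => ?_⟩
  obtain ⟨b1, b2, b3, b4⟩ := hT₀ T hT
  obtain ⟨q, hq⟩ : ∃ q, q = Real.log T / Real.log (Real.log T) := ⟨_, rfl⟩
  have hL : 0 < Real.log T := Real.log_pos (by linarith)
  have hLL : 0 < Real.log (Real.log T) := lt_of_lt_of_le (by positivity) b2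
  have hq0 : 0 < q := by rw [hq]; positivity
  rw [← hq] at b1 ⊢
  obtain ⟨c, hc⟩ : ∃ c, c = c₁ * q := ⟨_, rfl⟩
  have hc' : 0 < c := by rw [hc]; positivity
  have hvol := H T b4 c (by rw [hc]; exact b1) (by rw [hc, hq])
  have hsp : 0 < sp T := by
    unfold sp
    positivity
  have hh1 : c * sp T ≤ 1 := by
    have h1 : c * sp T = 2 * Real.pi * c₁ / Real.log (Real.log T) := by
      rw [hc, hq]
      unfold sp
      field_simp
    rw [h1, div_le_one hLL]
    exact b2
  -- a point of the set which is not an ordinate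
  obtain ⟨t, ⟨ht1, ht2, ht3⟩, ht4⟩ : ∃ t, t ∈ {t : ℝ | T ≤ t ∧ t ≤ 2 * T ∧ c + θ * √c ≤ (zc (Ico t (t + c * sp T)) : ℝ)} ∧
      ¬ IsOrd t := by
    by_contra hcon
    push Not at hcon
    have h1 : {t : ℝ | T ≤ t ∧ t ≤ 2 * T ∧ c + θ * √c ≤ (zc (Ico t (t + c * sp T)) : ℝ)} ⊆ {g : ℝ | IsOrd g ∧ g ∈ Icc T (2 * T)} :=
      fun t ht => ⟨hcon t ht, ht.1, ht.2.1⟩
    have h2 : volume {g : ℝ | IsOrd g ∧ g ∈ Icc T (2 * T)} = 0 := (ord_fin T (2 * T)).measure_zero _
    have h3 := hvol.trans (measure_mono h1)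
    rw [h2, nonpos_iff_eq_zero, ENNReal.ofReal_eq_zero] at h3
    have h4 : 0 < Real.exp (-(A * c)) * T := by
      have : 0 < T := by linarith
      positivity
    linarith
  have ht0 : 0 < t := by linarith
  have hh0 : 0 ≤ c * sp T := by positivity
  have hstep := zc_step ht0 hh0 ht4
  have hM := Mt_diff ht0 hh0
  have hM2 : c * sp T / (2 * Real.pi) * Real.log ((t + c * sp T) / (2 * Real.pi)) ≤ c := by
    have h1 : Real.log ((t + c * sp T) / (2 * Real.pi)) ≤ Real.log T := by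
      apply Real.log_le_log (by positivity)
      rw [div_le_iff₀ (by positivity)]
      have := Real.pi_gt_three
      nlinarith
    calc c * sp T / (2 * Real.pi) * Real.log ((t + c * sp T) / (2 * Real.pi)) ≤ c * sp T / (2 * Real.pi) * Real.log T :=
          mul_le_mul_of_nonneg_left h1 (by positivity)
      _ = c := by
          unfold sp
          field_simp
  have hsc : √c = √c₁ * √q := by rw [hc, Real.sqrt_mul hc1.le]
  have hdiff : θ * √c ≤ ((zc (Ioc 0 (t + c * sp T)) : ℝ) - Mt (t + c * sp T)) - ((zc (Ioc 0 t) : ℝ) - Mt t) := by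
    linarith
  rcases le_total (θ * √c / 2) |(zc (Ioc 0 t) : ℝ) - Mt t| with h | h
  · refine ⟨t, ht1, by linarith, ?_⟩
    calc θ * √c₁ / 2 * √q = θ * √c / 2 := by rw [hsc]; ring
      _ ≤ _ := h
  · refine ⟨t + c * sp T, by linarith, by linarith, ?_⟩
    have h1 := neg_abs_le ((zc (Ioc 0 t) : ℝ) - Mt t)
    have h2 := le_abs_self ((zc (Ioc 0 (t + c * sp T)) : ℝ) - Mt (t + c * sp T))
    calc θ * √c₁ / 2 * √q = θ * √c / 2 := by rw [hsc]; ring
      _ ≤ |(zc (Ioc 0 (t + c * sp T)) : ℝ) - Mt (t + c * sp T)| := by linarith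

lemma Mt_diff' {t h : ℝ} (ht : 0 < t) (hh : 0 ≤ h) :
    h / (2 * Real.pi) * Real.log (t / (2 * Real.pi)) ≤ Mt (t + h) - Mt t := by
  have hpi := Real.pi_pos
  have hth : 0 < t + h := by linarith
  have e : ∀ x : ℝ, 0 < x → Mt x = x / (2 * Real.pi) * (Real.log x - Real.log (2 * Real.pi) - 1) := by
    intro x hx
    unfold Mt
    rw [Real.log_div hx.ne' (by positivity), Real.log_mul (by positivity) (by positivity), Real.log_exp]
    ring
  rw [e _ hth, e _ ht, Real.log_div ht.ne' (by positivity)]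
  have h1 : h / (t + h) ≤ Real.log (t + h) - Real.log t := by
    rw [← Real.log_div hth.ne' ht.ne']
    have h2 := Real.one_sub_inv_le_log_of_pos (show 0 < (t + h) / t by positivity)
    have h3 : 1 - ((t + h) / t)⁻¹ = h / (t + h) := by
      field_simp
      ring
    linarith
  have h4 : h ≤ (t + h) * (Real.log (t + h) - Real.log t) := by
    calc h = (t + h) * (h / (t + h)) := by field_simp
      _ ≤ _ := mul_le_mul_of_nonneg_left h1 hth.le
  have h5 : (t + h) / (2 * Real.pi) * (Real.log (t + h) - Real.log (2 * Real.pi) - 1) -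
      t / (2 * Real.pi) * (Real.log t - Real.log (2 * Real.pi) - 1) =
      h / (2 * Real.pi) * (Real.log t - Real.log (2 * Real.pi)) +
        ((t + h) * (Real.log (t + h) - Real.log t) - h) / (2 * Real.pi) := by
    field_simp
    ring
  rw [h5]
  have h6 : 0 ≤ ((t + h) * (Real.log (t + h) - Real.log t) - h) / (2 * Real.pi) :=
    div_nonneg (by linarith) (by positivity)
  linarith

lemma zc_step' {t h : ℝ} (ht : 0 < t) (hh : 0 ≤ h) (hord : ¬ IsOrd (t + h)) :
    (zc (Ioc 0 (t + h)) : ℝ) ≤ (zc (Ioc 0 t) : ℝ) + zc (Ico t (t + h)) := by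
  have h1 : zc (Ioc t (t + h)) ≤ zc (Ico t (t + h)) := by
    rcases eq_or_lt_of_le hh with h0 | h0
    · rw [← h0, add_zero, Ioc_self, zc_empty_of (I := ∅) (by simp)]
      exact Nat.zero_le _
    · have e1 : Ioc t (t + h) = {t + h} ∪ Ioo t (t + h) := by
        ext x
        simp only [mem_Ioc, mem_union, mem_singleton_iff, mem_Ioo]
        constructor
        · rintro ⟨a, b⟩
          rcases eq_or_lt_of_le b with b' | b'
          · left; exact b'
          · right; exact ⟨a, b'⟩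
        · rintro (a | ⟨a, b⟩)
          · subst a
            exact ⟨by linarith, le_rfl⟩
          · exact ⟨a, b.le⟩
      rw [e1, zc_union (a := t) (b := t + h) (by simp [h0.le]) Ioo_subset_Icc_self (by
        rw [Set.disjoint_left]
        intro x hx hx2
        rw [mem_singleton_iff] at hx
        subst hx
        exact lt_irrefl _ hx2.2)]
      rw [zc_empty_of (I := {t + h}) (by
        intro g hg
        rw [mem_singleton_iff] at hg
        subst hg
        exact hord), zero_add]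
      exact zc_mono Ioo_subset_Ico_self Ico_subset_Icc_self
  have h2 : zc (Ioc 0 (t + h)) = zc (Ioc 0 t) + zc (Ioc t (t + h)) := by
    rw [← zc_union (a := 0) (b := t + h)]
    · rw [Ioc_union_Ioc_eq_Ioc ht.le (by linarith)]
    · exact fun x hx => ⟨hx.1.le, hx.2.trans (by linarith)⟩
    · exact fun x hx => ⟨(ht.trans hx.1).le, hx.2⟩
    · rw [Set.disjoint_left]
      intro x hx hx2
      exact absurd hx.2 (not_le.2 hx2.1)
  rw [h2]
  push_cast
  have : (zc (Ioc t (t + h)) : ℝ) ≤ zc (Ico t (t + h)) := by exact_mod_cast h1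
  linarith

/-- `S(t+h) - S(t) = Ω±(√(h log t))`, uniformly for `c₀/log T ≤ h ≤ c₁/log log T`, from the two measure statements -/
theorem arg_diff_of (hp : Mp) (hm : Mm) : ∃ κ c₀ c₁ T₀ : ℝ, 0 < κ ∧ 0 < c₀ ∧ 0 < c₁ ∧ ∀ T : ℝ, T₀ ≤ T → ∀ h : ℝ,
    c₀ / Real.log T ≤ h → h ≤ c₁ / Real.log (Real.log T) →
    (∃ t : ℝ, T ≤ t ∧ t ≤ 2 * T ∧ κ * √(h * Real.log T) ≤
      ((zc (Ioc 0 (t + h)) : ℝ) - (t + h) / (2 * Real.pi) * Real.log ((t + h) / (2 * Real.pi * Real.exp 1))) -
        ((zc (Ioc 0 t) : ℝ) - t / (2 * Real.pi) * Real.log (t / (2 * Real.pi * Real.exp 1)))) ∧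
    ∃ t : ℝ, T ≤ t ∧ t ≤ 2 * T ∧
      ((zc (Ioc 0 (t + h)) : ℝ) - (t + h) / (2 * Real.pi) * Real.log ((t + h) / (2 * Real.pi * Real.exp 1))) -
        ((zc (Ioc 0 t) : ℝ) - t / (2 * Real.pi) * Real.log (t / (2 * Real.pi * Real.exp 1))) ≤ -(κ * √(h * Real.log T)) := by
  obtain ⟨θ, A, c₀, c₁, T₁, hθ, hA, hc0, hc1, H⟩ := hp
  obtain ⟨θ', A', B', c₀', c₁', T₁', hθ', hA', hB', hc0', hc1', H'⟩ := hm
  have hpi := Real.pi_pos
  have hpi3 := Real.pi_gt_three
  have ev : ∀ᶠ T : ℝ in atTop, 1 ≤ Real.log (Real.log T) ∧ 10 ≤ T ∧ T₁ ≤ T ∧ T₁' ≤ T := by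
    have e3 : Tendsto (fun T : ℝ => Real.log (Real.log T)) atTop atTop := Real.tendsto_log_atTop.comp Real.tendsto_log_atTop
    filter_upwards [e3.eventually_ge_atTop 1, eventually_ge_atTop (10:ℝ),
      eventually_ge_atTop T₁, eventually_ge_atTop T₁'] with T a2 a3 a4 a5
    exact ⟨a2, a3, a4, a5⟩
  obtain ⟨T₀, hT₀⟩ := eventually_atTop.1 ev
  obtain ⟨C, hC⟩ : ∃ C, C = max (max c₀ c₀') (4 / θ' ^ 2) := ⟨_, rfl⟩
  obtain ⟨D, hD⟩ : ∃ D, D = min (min c₁ c₁') (1 / (2 * Real.pi)) := ⟨_, rfl⟩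
  have hC1 : c₀ ≤ C := by rw [hC]; exact (le_max_left _ _).trans (le_max_left _ _)
  have hC2 : c₀' ≤ C := by rw [hC]; exact (le_max_right _ _).trans (le_max_left _ _)
  have hC3 : 4 / θ' ^ 2 ≤ C := by rw [hC]; exact le_max_right _ _
  have hD1 : D ≤ c₁ := by rw [hD]; exact (min_le_left _ _).trans (min_le_left _ _)
  have hD2 : D ≤ c₁' := by rw [hD]; exact (min_le_left _ _).trans (min_le_right _ _)
  have hD3 : D ≤ 1 / (2 * Real.pi) := by rw [hD]; exact min_le_right _ _
  have hD0 : 0 < D := by rw [hD]; positivity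
  have hC0 : 0 < C := by linarith
  refine ⟨min θ (θ' / 2) / √(2 * Real.pi), 2 * Real.pi * C, 2 * Real.pi * D, T₀, by positivity, by positivity, by positivity, ?_⟩
  intro T hT h hh1 hh2
  obtain ⟨b2, b3, b4, b5⟩ := hT₀ T hT
  have hL : 0 < Real.log T := Real.log_pos (by linarith)
  have hLL : 0 < Real.log (Real.log T) := by linarith
  obtain ⟨c, hc⟩ : ∃ c, c = h * Real.log T / (2 * Real.pi) := ⟨_, rfl⟩
  have hh : h = c * sp T := by
    rw [hc]
    unfold sp
    field_simp
  have hcC : C ≤ c := by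
    rw [hc, le_div_iff₀ (by positivity)]
    rw [div_le_iff₀ hL] at hh1
    linarith
  have hcD : c ≤ D * (Real.log T / Real.log (Real.log T)) := by
    rw [hc, div_le_iff₀ (by positivity)]
    have h1 := mul_le_mul_of_nonneg_right hh2 hL.le
    calc h * Real.log T ≤ 2 * Real.pi * D / Real.log (Real.log T) * Real.log T := h1
      _ = D * (Real.log T / Real.log (Real.log T)) * (2 * Real.pi) := by ring
  have hq0 : 0 ≤ Real.log T / Real.log (Real.log T) := by positivity
  have hc' : 0 < c := by linarith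
  have hT0 : 0 < T := by linarith
  have hh0 : 0 ≤ h := by
    have : 0 < sp T := by unfold sp; positivity
    rw [hh]
    positivity
  have hh3 : h ≤ 1 := by
    refine hh2.trans ?_
    rw [div_le_one hLL]
    have h1 := mul_le_mul_of_nonneg_left hD3 (show 0 ≤ 2 * Real.pi by positivity)
    have h2 : 2 * Real.pi * (1 / (2 * Real.pi)) = 1 := by field_simp
    linarith
  have hsq : √(h * Real.log T) = √(2 * Real.pi) * √c := by
    rw [← Real.sqrt_mul (by positivity)]
    congr 1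
    rw [hc]
    field_simp
  have hκ : min θ (θ' / 2) / √(2 * Real.pi) * √(h * Real.log T) = min θ (θ' / 2) * √c := by
    rw [hsq]
    have : 0 < √(2 * Real.pi) := by positivity
    field_simp
  have hlogT : c = h / (2 * Real.pi) * Real.log T := by
    rw [hc]
    ring
  have hfin : ∀ x y : ℝ, volume {g : ℝ | IsOrd g ∧ g ∈ Icc x y} = 0 := fun x y => (ord_fin x y).measure_zero _
  have hpos : ∀ a : ℝ, 0 < Real.exp (-(a * c)) * T := fun a => by positivity
  constructor
  · have hvol := H T b4 c (hC1.trans hcC) (hcD.trans (mul_le_mul_of_nonneg_right hD1 hq0))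
    obtain ⟨t, ⟨ht1, ht2, ht3⟩, ht4⟩ : ∃ t, t ∈ {t : ℝ | T ≤ t ∧ t ≤ 2 * T ∧ c + θ * √c ≤ (zc (Ico t (t + c * sp T)) : ℝ)} ∧
        ¬ IsOrd t := by
      by_contra hcon
      push Not at hcon
      have h1 : {t : ℝ | T ≤ t ∧ t ≤ 2 * T ∧ c + θ * √c ≤ (zc (Ico t (t + c * sp T)) : ℝ)} ⊆ {g : ℝ | IsOrd g ∧ g ∈ Icc T (2 * T)} :=
        fun t ht => ⟨hcon t ht, ht.1, ht.2.1⟩
      have h3 := hvol.trans (measure_mono h1)
      rw [hfin, nonpos_iff_eq_zero, ENNReal.ofReal_eq_zero] at h3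
      linarith [hpos A]
    rw [← hh] at ht3
    refine ⟨t, ht1, ht2, ?_⟩
    have ht0 : 0 < t := by linarith
    have hstep := zc_step ht0 hh0 ht4
    have hM := Mt_diff ht0 hh0
    have hM2 : h / (2 * Real.pi) * Real.log ((t + h) / (2 * Real.pi)) ≤ c := by
      have h1 : Real.log ((t + h) / (2 * Real.pi)) ≤ Real.log T := by
        apply Real.log_le_log (by positivity)
        rw [div_le_iff₀ (by positivity)]
        nlinarith
      rw [hlogT]
      exact mul_le_mul_of_nonneg_left h1 (by positivity)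
    rw [hκ]
    have h5 : min θ (θ' / 2) * √c ≤ θ * √c := mul_le_mul_of_nonneg_right (min_le_left _ _) (Real.sqrt_nonneg _)
    unfold Mt at hM
    linarith
  · have hvol := H' T b5 c (hC2.trans hcC) (hcD.trans (mul_le_mul_of_nonneg_right hD2 hq0))
    obtain ⟨t, ⟨ht1, ht2, ht3, -⟩, ht4⟩ : ∃ t, t ∈ {t : ℝ | T ≤ t ∧ t ≤ 2 * T ∧ (zc (Ico t (t + c * sp T)) : ℝ) ≤ c - θ' * √c ∧
        ∃ g : ℝ, IsOrd g ∧ t - B' * c * sp T ≤ g ∧ g < t} ∧ ¬ IsOrd (t + h) := by
      by_contra hcon
      push Not at hcon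
      have h1 : {t : ℝ | T ≤ t ∧ t ≤ 2 * T ∧ (zc (Ico t (t + c * sp T)) : ℝ) ≤ c - θ' * √c ∧
        ∃ g : ℝ, IsOrd g ∧ t - B' * c * sp T ≤ g ∧ g < t} ⊆
          (fun g => g - h) '' {g : ℝ | IsOrd g ∧ g ∈ Icc T (2 * T + 1)} :=
        fun t ht => ⟨t + h, ⟨hcon t ht, by linarith [ht.1], by linarith [ht.2.1]⟩, by simp⟩
      have h3 := hvol.trans (measure_mono h1)
      have h4 : ((fun g => g - h) '' {g : ℝ | IsOrd g ∧ g ∈ Icc T (2 * T + 1)}).Finite := (ord_fin T (2 * T + 1)).image _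
      rw [h4.measure_zero, nonpos_iff_eq_zero, ENNReal.ofReal_eq_zero] at h3
      linarith [hpos A']
    rw [← hh] at ht3
    refine ⟨t, ht1, ht2, ?_⟩
    have ht0 : 0 < t := by linarith
    have hstep := zc_step' ht0 hh0 ht4
    have hM := Mt_diff' ht0 hh0
    have hM2 : c - 1 ≤ h / (2 * Real.pi) * Real.log (t / (2 * Real.pi)) := by
      have h1 : Real.log T - Real.log (2 * Real.pi) ≤ Real.log (t / (2 * Real.pi)) := by
        rw [Real.log_div ht0.ne' (by positivity)]
        linarith [Real.log_le_log hT0 ht1]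
      have h2 : Real.log (2 * Real.pi) ≤ 2 * Real.pi := by
        have := Real.log_le_sub_one_of_pos (show 0 < 2 * Real.pi by positivity)
        linarith
      have h3 : h / (2 * Real.pi) * Real.log (2 * Real.pi) ≤ 1 := by
        calc h / (2 * Real.pi) * Real.log (2 * Real.pi) ≤ h / (2 * Real.pi) * (2 * Real.pi) :=
              mul_le_mul_of_nonneg_left h2 (by positivity)
          _ = h := by field_simp
          _ ≤ 1 := hh3
      have h4 := mul_le_mul_of_nonneg_left h1 (show 0 ≤ h / (2 * Real.pi) by positivity)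
      rw [mul_sub, ← hlogT] at h4
      linarith
    rw [hκ]
    have h5 : min θ (θ' / 2) * √c ≤ θ' / 2 * √c := mul_le_mul_of_nonneg_right (min_le_right _ _) (Real.sqrt_nonneg _)
    have h6 : 1 ≤ θ' / 2 * √c := by
      have h7 : 4 / θ' ^ 2 ≤ c := hC3.trans hcC
      have h8 : 2 / θ' ≤ √c := by
        apply Real.le_sqrt_of_sq_le
        calc (2 / θ') ^ 2 = 4 / θ' ^ 2 := by ring
          _ ≤ c := h7
      calc (1:ℝ) = θ' / 2 * (2 / θ') := by field_simp
        _ ≤ _ := mul_le_mul_of_nonneg_left h8 (by positivity)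
    unfold Mt at hM
    linarith

end Pool.Agent.Helper49.UG
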