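import Pool.Agent.Helper49.UG.Jen

/-!
# UG: the chain of discs
-/

set_option autoImplicit false
open Complex Set MeasureTheory Filter Topology Metric
open Pool.Agent.Helper57.Zeta Pool.Agent.Helper57.ED

namespace Pool.Agent.Helper49.UG

/-- centre -/
noncomputable def sc (a w t : ℝ) : ℂ := ((1 / 2 + a * w : ℝ) : ℂ) + (t : ℂ) * I

/-- the quantity of one disc: circle average plus twice the value at the centre -/
noncomputable def disc (F : ℂ → ℂ) (a w t : ℝ) : ℝ :=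
  Real.circleAverage (fun z => ‖F z - 1‖) (sc a w t) ((a - 1 / 2) * w) + 2 * ‖F (sc a w t) - 1‖

lemma disc_nonneg (F : ℂ → ℂ) (a w t : ℝ) : 0 ≤ disc F a w t := by
  unfold disc
  have h1 : 0 ≤ Real.circleAverage (fun z => ‖F z - 1‖) (sc a w t) ((a - 1 / 2) * w) :=
    Real.circleAverage_nonneg_of_nonneg (fun _ _ => norm_nonneg _)
  positivity

/-- one disc: centre `1/2 + a w + it`, radius `(a - 1/2) w`, `a ≥ 4`, zeros with `w ≤ β - 1/2 ≤ 7 w`, `|γ - t| ≤ w` -/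
theorem one_disc {F : ℂ → ℂ} {a w t : ℝ} (ha : 4 ≤ a) (hw : 0 < w)
    (hF : AnalyticOnNhd ℂ F (closedBall (sc a w t) ((a - 1 / 2) * w))) (hc : ‖F (sc a w t) - 1‖ ≤ 1 / 2)
    (Z : Finset ℂ) (m : ℂ → ℝ) (hm : 0 ≤ ∑ ρ ∈ Z, m ρ)
    (hZ : ∀ ρ ∈ Z, w ≤ ρ.re - 1 / 2 ∧ ρ.re - 1 / 2 ≤ 7 * w ∧ |ρ.im - t| ≤ w ∧ m ρ ≤ (analyticOrderNatAt F ρ : ℝ)) :
    ∑ ρ ∈ Z, m ρ ≤ 15 / 4 * a * disc F a w t := by
  have ha1 : 0 < a - 1 := by linarith
  set q : ℝ := a - 1 + 1 / (2 * (a - 1)) with hq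
  have hq0 : 0 < q := by rw [hq]; positivity
  have hq2 : (a - 1) ^ 2 + 1 ≤ q ^ 2 := by
    have h1 : q ^ 2 = (a - 1) ^ 2 + 1 + 1 / (2 * (a - 1)) ^ 2 := by
      rw [hq]
      field_simp
      ring
    have h2 : 0 ≤ 1 / (2 * (a - 1)) ^ 2 := by positivity
    linarith
  have hqR : q < a - 1 / 2 := by
    have h1 : 1 / (2 * (a - 1)) < 1 / 2 := by
      apply one_div_lt_one_div_of_lt <;> linarith
    rw [hq]
    linarith
  have hr : 0 < q * w := mul_pos hq0 hw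
  have hrR : q * w < (a - 1 / 2) * w := mul_lt_mul_of_pos_right hqR hw
  have hJ := jen_near_one hr hrR hF hc Z m (fun ρ hρ => by
    obtain ⟨h1, h2, h3, h4⟩ := hZ ρ hρ
    refine ⟨?_, h4⟩
    have e1 : (ρ - sc a w t).re = (ρ.re - 1 / 2) - a * w := by
      unfold sc
      simp
      ring
    have e2 : (ρ - sc a w t).im = ρ.im - t := by
      unfold sc
      simp
    have e3 : ‖ρ - sc a w t‖ ^ 2 = ((ρ.re - 1 / 2) - a * w) ^ 2 + (ρ.im - t) ^ 2 := by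
      rw [← Complex.normSq_eq_norm_sq, Complex.normSq_apply, e1, e2]
      ring
    have e4 : ((ρ.re - 1 / 2) - a * w) ^ 2 ≤ ((a - 1) * w) ^ 2 := by
      apply sq_le_sq'
      · nlinarith
      · nlinarith
    have e5 : (ρ.im - t) ^ 2 ≤ w ^ 2 := by
      rw [← sq_abs]
      exact pow_le_pow_left₀ (abs_nonneg _) h3 2
    have e6 : ‖ρ - sc a w t‖ ^ 2 ≤ (q * w) ^ 2 := by
      rw [e3, mul_pow]
      have : ((a - 1) ^ 2 + 1) * w ^ 2 ≤ q ^ 2 * w ^ 2 := mul_le_mul_of_nonneg_right hq2 (sq_nonneg w)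
      nlinarith
    exact (pow_le_pow_iff_left₀ (norm_nonneg _) hr.le two_ne_zero).mp e6)
  have hlog : 4 / (15 * a) ≤ Real.log ((a - 1 / 2) * w / (q * w)) := by
    rw [mul_div_mul_right _ _ hw.ne']
    have hR : 0 < a - 1 / 2 := by linarith
    have h1 := Real.one_sub_inv_le_log_of_pos (show 0 < (a - 1 / 2) / q by positivity)
    rw [inv_div] at h1
    refine le_trans ?_ h1
    have h2 : 1 - q / (a - 1 / 2) = (a - 2) / (2 * (a - 1) * (a - 1 / 2)) := by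
      have e1 : a - 1 / 2 - q = (a - 2) / (2 * (a - 1)) := by
        rw [hq]
        field_simp
        ring
      have e2 : 1 - q / (a - 1 / 2) = (a - 1 / 2 - q) / (a - 1 / 2) := by
        rw [sub_div (a - 1 / 2) q, div_self hR.ne']
      rw [e2, e1, div_div]
    rw [h2, div_le_div_iff₀ (by positivity) (by positivity)]
    nlinarith
  have hd : disc F a w t = Real.circleAverage (fun z => ‖F z - 1‖) (sc a w t) ((a - 1 / 2) * w) +
      2 * ‖F (sc a w t) - 1‖ := rfl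
  rw [← hd] at hJ
  have h3 : (∑ ρ ∈ Z, m ρ) * (4 / (15 * a)) ≤ disc F a w t :=
    (mul_le_mul_of_nonneg_left hlog hm).trans hJ
  have h4 : ∑ ρ ∈ Z, m ρ = 15 / 4 * a * ((∑ ρ ∈ Z, m ρ) * (4 / (15 * a))) := by
    field_simp
  rw [h4]
  exact mul_le_mul_of_nonneg_left h3 (by positivity)

/-- **the chain**: discs with `a = 2^(k+2)`, `k < K` -/
theorem chain {F : ℂ → ℂ} {w t : ℝ} (hw : 0 < w) (K : ℕ)
    (hF : ∀ k < K, AnalyticOnNhd ℂ F (closedBall (sc (2 ^ (k + 2)) w t) ((2 ^ (k + 2) - 1 / 2) * w)))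
    (Z : Finset ℂ) (m : ℂ → ℝ) (hm : 0 ≤ ∑ ρ ∈ Z, m ρ)
    (hZ : ∀ ρ ∈ Z, w ≤ ρ.re - 1 / 2 ∧ ρ.re - 1 / 2 ≤ 7 * w ∧ |ρ.im - t| ≤ w ∧ m ρ ≤ (analyticOrderNatAt F ρ : ℝ)) :
    ∑ ρ ∈ Z, m ρ ≤ ∑ k ∈ Finset.range K, 15 * 2 ^ k * disc F (2 ^ (k + 2)) w t *
        (if k = 0 then 1 else 2 * ‖F (sc (2 ^ (k + 1)) w t) - 1‖) +
      (∑ ρ ∈ Z, m ρ) * (if K = 0 then 1 else 2 * ‖F (sc (2 ^ (K + 1)) w t) - 1‖) := by
  induction K with
  | zero => simp
  | succ K ih =>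
    have h1 := ih (fun k hk => hF k (by omega))
    rw [Finset.sum_range_succ]
    have hsum0 : 0 ≤ ∑ k ∈ Finset.range K, 15 * 2 ^ k * disc F (2 ^ (k + 2)) w t *
        (if k = 0 then (1:ℝ) else 2 * ‖F (sc (2 ^ (k + 1)) w t) - 1‖) := by
      refine Finset.sum_nonneg fun k _ => ?_
      have := disc_nonneg F (2 ^ (k + 2)) w t
      split_ifs <;> positivity
    have hd0 := disc_nonneg F (2 ^ (K + 2)) w t
    have hi0 : (0:ℝ) ≤ (if K = 0 then 1 else 2 * ‖F (sc (2 ^ (K + 1)) w t) - 1‖) := by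
      split_ifs <;> positivity
    rw [if_neg (Nat.succ_ne_zero K)]
    by_cases hc : ‖F (sc (2 ^ (K + 2)) w t) - 1‖ ≤ 1 / 2
    · -- the disc K is good
      have h4 : (4:ℝ) ≤ 2 ^ (K + 2) := by
        have : (1:ℝ) ≤ 2 ^ K := one_le_pow₀ (by norm_num)
        rw [pow_add]
        linarith
      have h2 := one_disc h4 hw (hF K (by omega)) hc Z m hm hZ
      have h3 : 15 / 4 * (2:ℝ) ^ (K + 2) * disc F (2 ^ (K + 2)) w t = 15 * 2 ^ K * disc F (2 ^ (K + 2)) w t := by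
        rw [pow_add]
        ring
      rw [h3] at h2
      have h5 : (∑ ρ ∈ Z, m ρ) * (if K = 0 then (1:ℝ) else 2 * ‖F (sc (2 ^ (K + 1)) w t) - 1‖) ≤
          15 * 2 ^ K * disc F (2 ^ (K + 2)) w t * (if K = 0 then 1 else 2 * ‖F (sc (2 ^ (K + 1)) w t) - 1‖) :=
        mul_le_mul_of_nonneg_right h2 hi0
      have h6 : 0 ≤ (∑ ρ ∈ Z, m ρ) * (2 * ‖F (sc (2 ^ (K + 1 + 1)) w t) - 1‖) := by positivity
      linarith
    · -- the disc K is bad
      push Not at hc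
      have h7 : (∑ ρ ∈ Z, m ρ) ≤ (∑ ρ ∈ Z, m ρ) * (2 * ‖F (sc (2 ^ (K + 1 + 1)) w t) - 1‖) := by
        have : 1 ≤ 2 * ‖F (sc (2 ^ (K + 1 + 1)) w t) - 1‖ := by
          have e : K + 1 + 1 = K + 2 := rfl
          rw [e]
          linarith
        nlinarith
      have h8 : 0 ≤ 15 * 2 ^ K * disc F (2 ^ (K + 2)) w t * (if K = 0 then (1:ℝ) else 2 * ‖F (sc (2 ^ (K + 1)) w t) - 1‖) := by
        positivity
      linarith

end Pool.Agent.Helper49.UG
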