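import Pool.Agent.Helper49.UG.MGY

/-!
# UG: block Z5 (`mLast`), from M5 and R7
-/

set_option autoImplicit false
open MeasureTheory Set Filter Topology Metric
open Pool.Agent.Helper57.Zeta Pool.Agent.Helper57.LH Pool.Agent.Helper57.ED Pool.Agent.Helper54.LG
open Pool.Agent.Helper69.UG

namespace Pool.Agent.Helper49.UG

/-- statement of R7 -/
def M4S : Prop := ∃ A c0 T0 : ℝ, ∀ T, T0 ≤ T → ∀ c, Adm c0 T c → ∀ v : ℝ, v ^ 2 = c / 100 → ∀ τ : ℝ,
    Integrable (fun t => PW (WW T) (t - τ) * ‖RR T c v t‖ ^ 4) ∧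
    ∫ t, PW (WW T) (t - τ) * ‖RR T c v t‖ ^ 4 ≤ Real.exp (A * c) * VV T c v ^ 2

/-- the logarithm against the Poisson kernel, pointwise -/
lemma log_pt {T u τ t : ℝ} (hT : 3 ≤ T) (hu : |u| ≤ T) (hτ : |τ| ≤ 2 * T) :
    Real.log (4 + |t + u|) ^ 4 ≤ 14641 * Real.log T ^ 4 * (1 + |t - τ| / T) ^ (1 / 2 : ℝ) := by
  have hL : 1 ≤ Real.log T := by
    rw [Real.le_log_iff_exp_le (by linarith)]
    have := Real.exp_one_lt_d9
    linarith
  have hT0 : 0 < T := by linarith
  obtain ⟨s, hs⟩ : ∃ s, s = |t - τ| / T := ⟨_, rfl⟩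
  have hs0 : 0 ≤ s := by rw [hs]; positivity
  have h1 : 4 + |t + u| ≤ 5 * T * (1 + s) := by
    have h2 : |t + u| ≤ |t - τ| + |τ| + |u| := by
      calc |t + u| = |(t - τ) + τ + u| := by congr 1; ring
        _ ≤ |(t - τ) + τ| + |u| := abs_add_le _ _
        _ ≤ _ := by linarith [abs_add_le (t - τ) τ]
    have h3 : T * s = |t - τ| := by
      rw [hs]
      field_simp
    nlinarith
  have h2 : 0 ≤ |t + u| := abs_nonneg _
  have h4 : Real.log (4 + |t + u|) ≤ Real.log (5 * T) + Real.log (1 + s) := by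
    rw [← Real.log_mul (by positivity) (by positivity)]
    exact Real.log_le_log (by positivity) h1
  have h5 : Real.log (5 * T) ≤ 3 * Real.log T := by
    have h6 : Real.log (5 * T) ≤ Real.log (T ^ 3) := by
      apply Real.log_le_log (by positivity)
      nlinarith [mul_nonneg hT0.le (show (0:ℝ) ≤ T ^ 2 - 5 by nlinarith)]
    rw [Real.log_pow] at h6
    exact_mod_cast h6
  have h6 : Real.log (1 + s) ≤ 8 * (1 + s) ^ (1 / 8 : ℝ) := by
    have h7 := Real.log_le_rpow_div (show 0 ≤ 1 + s by linarith) (show (0:ℝ) < 1 / 8 by norm_num)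
    linarith
  have h8 : 1 ≤ (1 + s) ^ (1 / 8 : ℝ) := Real.one_le_rpow (by linarith) (by norm_num)
  have h9 : Real.log (4 + |t + u|) ≤ 11 * Real.log T * (1 + s) ^ (1 / 8 : ℝ) := by
    nlinarith
  have h10 : 0 ≤ Real.log (4 + |t + u|) := Real.log_nonneg (by linarith)
  calc Real.log (4 + |t + u|) ^ 4 ≤ (11 * Real.log T * (1 + s) ^ (1 / 8 : ℝ)) ^ 4 := pow_le_pow_left₀ h10 h9 4
    _ = 14641 * Real.log T ^ 4 * ((1 + s) ^ (1 / 8 : ℝ)) ^ 4 := by ring
    _ = 14641 * Real.log T ^ 4 * (1 + |t - τ| / T) ^ (1 / 2 : ℝ) := by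
        rw [← Real.rpow_natCast ((1 + s) ^ (1 / 8 : ℝ)) 4, ← Real.rpow_mul (by linarith), hs]
        norm_num

/-- the integrable profile -/
noncomputable def prof (v : ℝ) : ℝ := (1 + ‖v‖ ^ 2) ^ (-(3 / 2 : ℝ) / 2)

lemma prof_int : Integrable prof :=
  integrable_rpow_neg_one_add_norm_sq (E := ℝ) (μ := volume) (r := 3 / 2) (by
    rw [Module.finrank_self]
    norm_num)

lemma prof_nonneg (v : ℝ) : 0 ≤ prof v := by
  unfold prof
  positivity

lemma PW_pt {W T x : ℝ} (hW : 0 < W) (hWT : W ≤ T) :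
    PW W x * (1 + |x| / T) ^ (1 / 2 : ℝ) ≤ W⁻¹ * prof (x * W⁻¹) := by
  have hpi := Real.pi_pos
  obtain ⟨a, ha⟩ : ∃ a, a = |x| / W := ⟨_, rfl⟩
  have ha0 : 0 ≤ a := by rw [ha]; positivity
  have h1 : |x| / T ≤ a := by
    rw [ha]
    exact div_le_div_of_nonneg_left (abs_nonneg x) hW hWT
  have e1 : PW W x = W⁻¹ * (Real.pi⁻¹ * (1 + a ^ 2)⁻¹) := by
    unfold PW
    rw [ha, div_pow, sq_abs]
    field_simp
  have e2 : prof (x * W⁻¹) = (1 + a ^ 2) ^ (-(3 / 4 : ℝ)) := by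
    unfold prof
    rw [Real.norm_eq_abs, abs_mul, abs_of_pos (inv_pos.mpr hW), ← div_eq_mul_inv, ← ha]
    norm_num
  rw [e1, e2, mul_assoc]
  apply mul_le_mul_of_nonneg_left _ (inv_nonneg.mpr hW.le)
  have hb : 0 < 1 + a ^ 2 := by positivity
  have h2 : (1 + |x| / T) ^ (1 / 2 : ℝ) ≤ 2 * (1 + a ^ 2) ^ (1 / 4 : ℝ) := by
    have h3 : 1 + |x| / T ≤ 4 * (1 + a ^ 2) ^ (1 / 2 : ℝ) := by
      have h4 : (1 + a ^ 2) ^ (1 / 2 : ℝ) = √(1 + a ^ 2) := by rw [Real.sqrt_eq_rpow]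
      rw [h4]
      have h5 : 1 ≤ √(1 + a ^ 2) := Real.one_le_sqrt.2 (by nlinarith)
      have h6 : a ≤ √(1 + a ^ 2) := Real.le_sqrt_of_sq_le (by linarith)
      linarith
    have h7 : (0:ℝ) ≤ 1 + |x| / T := by
      have : 0 ≤ |x| / T := by
        have : 0 < T := hW.trans_le hWT
        positivity
      linarith
    calc (1 + |x| / T) ^ (1 / 2 : ℝ) ≤ (4 * (1 + a ^ 2) ^ (1 / 2 : ℝ)) ^ (1 / 2 : ℝ) :=
          Real.rpow_le_rpow h7 h3 (by norm_num)
      _ = 2 * (1 + a ^ 2) ^ (1 / 4 : ℝ) := by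
          rw [Real.mul_rpow (by norm_num) (by positivity), ← Real.rpow_mul hb.le]
          have : (4:ℝ) ^ (1 / 2 : ℝ) = 2 := by
            rw [show (4:ℝ) = 2 ^ (2:ℝ) by norm_num, ← Real.rpow_mul (by norm_num)]
            norm_num
          rw [this]
          norm_num
  have h3 : (1 + a ^ 2)⁻¹ * (1 + a ^ 2) ^ (1 / 4 : ℝ) = (1 + a ^ 2) ^ (-(3 / 4 : ℝ)) := by
    rw [← Real.rpow_neg_one, ← Real.rpow_add hb]
    norm_num
  have h4 : Real.pi⁻¹ * 2 ≤ 1 := by
    rw [inv_mul_le_iff₀ hpi]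
    linarith [Real.pi_gt_three]
  calc Real.pi⁻¹ * (1 + a ^ 2)⁻¹ * (1 + |x| / T) ^ (1 / 2 : ℝ) ≤
      Real.pi⁻¹ * (1 + a ^ 2)⁻¹ * (2 * (1 + a ^ 2) ^ (1 / 4 : ℝ)) := mul_le_mul_of_nonneg_left h2 (by positivity)
    _ = (Real.pi⁻¹ * 2) * ((1 + a ^ 2)⁻¹ * (1 + a ^ 2) ^ (1 / 4 : ℝ)) := by ring
    _ ≤ 1 * ((1 + a ^ 2)⁻¹ * (1 + a ^ 2) ^ (1 / 4 : ℝ)) := mul_le_mul_of_nonneg_right h4 (by positivity)
    _ = _ := by rw [one_mul, h3]

lemma WW_le {T : ℝ} (hT : 1 ≤ T) : WW T ≤ T := by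
  unfold WW
  calc T ^ (4095 / 4096 : ℝ) ≤ T ^ (1 : ℝ) := Real.rpow_le_rpow_of_exponent_le hT (by norm_num)
    _ = T := Real.rpow_one T

/-- fourth moment of the logarithm -/
lemma log_M2 : ∃ C : ℝ, 0 < C ∧ ∀ T u τ : ℝ, 3 ≤ T → |u| ≤ T → |τ| ≤ 2 * T →
    M2 (fun t => PW (WW T) (t - τ)) (fun t => Real.log (4 + |t + u|) ^ 2) (C * Real.log T ^ 2) := by
  obtain ⟨I, hI⟩ : ∃ I, I = ∫ v, prof v := ⟨_, rfl⟩
  have hI0 : 0 ≤ I := by
    rw [hI]
    exact integral_nonneg prof_nonneg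
  refine ⟨14641 * (1 + I), by positivity, fun T u τ hT hu hτ => ?_⟩
  have hT0 : 0 < T := by linarith
  have hW : 0 < WW T := Real.rpow_pos_of_pos hT0 _
  have hWT : WW T ≤ T := WW_le (by linarith)
  have hL : 1 ≤ Real.log T := by
    rw [Real.le_log_iff_exp_le (by linarith)]
    have := Real.exp_one_lt_d9
    linarith
  have hc : Continuous (fun t => Real.log (4 + |t + u|) ^ 2) := by
    apply Continuous.pow
    apply Continuous.log (by fun_prop)
    intro t
    have := abs_nonneg (t + u)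
    linarith
  have hPc : Continuous (fun t => PW (WW T) (t - τ)) := by
    unfold PW
    have hpi := Real.pi_pos
    apply Continuous.div continuous_const (by fun_prop)
    intro t
    positivity
  have hmaj0 : Integrable (fun x : ℝ => (WW T)⁻¹ * prof (x * (WW T)⁻¹)) :=
    (prof_int.comp_mul_right' (inv_ne_zero hW.ne')).const_mul _
  have hmaj : Integrable (fun t : ℝ => 14641 * Real.log T ^ 4 * ((WW T)⁻¹ * prof ((t - τ) * (WW T)⁻¹))) :=
    (hmaj0.comp_sub_right τ).const_mul _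
  have hpt : ∀ t, PW (WW T) (t - τ) * (Real.log (4 + |t + u|) ^ 2) ^ 2 ≤
      14641 * Real.log T ^ 4 * ((WW T)⁻¹ * prof ((t - τ) * (WW T)⁻¹)) := by
    intro t
    have h1 := log_pt (t := t) hT hu hτ
    have h2 := PW_pt (x := t - τ) hW hWT
    have h3 := (PW_pos hW (t - τ)).le
    calc PW (WW T) (t - τ) * (Real.log (4 + |t + u|) ^ 2) ^ 2 = PW (WW T) (t - τ) * Real.log (4 + |t + u|) ^ 4 := by ring
      _ ≤ PW (WW T) (t - τ) * (14641 * Real.log T ^ 4 * (1 + |t - τ| / T) ^ (1 / 2 : ℝ)) := mul_le_mul_of_nonneg_left h1 h3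
      _ = 14641 * Real.log T ^ 4 * (PW (WW T) (t - τ) * (1 + |t - τ| / T) ^ (1 / 2 : ℝ)) := by ring
      _ ≤ _ := mul_le_mul_of_nonneg_left h2 (by positivity)
  have hint : Integrable (fun t => PW (WW T) (t - τ) * (Real.log (4 + |t + u|) ^ 2) ^ 2) := by
    refine hmaj.mono' (hPc.mul (hc.pow 2)).aestronglyMeasurable (Eventually.of_forall fun t => ?_)
    rw [Real.norm_of_nonneg (mul_nonneg (PW_pos hW _).le (sq_nonneg _))]
    exact hpt t
  refine ⟨hc, fun t => sq_nonneg _, hint, ?_⟩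
  calc ∫ t, PW (WW T) (t - τ) * (Real.log (4 + |t + u|) ^ 2) ^ 2 ≤
      ∫ t, 14641 * Real.log T ^ 4 * ((WW T)⁻¹ * prof ((t - τ) * (WW T)⁻¹)) := integral_mono hint hmaj hpt
    _ = 14641 * Real.log T ^ 4 * I := by
        rw [integral_const_mul]
        congr 1
        rw [integral_sub_right_eq_self (fun x : ℝ => (WW T)⁻¹ * prof (x * (WW T)⁻¹)) τ, integral_const_mul,
          Measure.integral_comp_mul_right prof, inv_inv, abs_of_pos hW, smul_eq_mul, ← mul_assoc, inv_mul_cancel₀ hW.ne',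
          one_mul, hI]
    _ ≤ (14641 * (1 + I) * Real.log T ^ 2) ^ 2 := by
        have h1 : (14641 * (1 + I) * Real.log T ^ 2) ^ 2 = 14641 * Real.log T ^ 4 * (14641 * (1 + I) ^ 2) := by ring
        rw [h1]
        apply mul_le_mul_of_nonneg_left _ (by positivity)
        nlinarith

/-- Z5 -/
theorem mLast_of (hfm : FmS) (hm4 : M4S) : ∃ c0 T0 : ℝ, ∀ T, T0 ≤ T → ∀ c, Adm c0 T c → ∀ v : ℝ, v ^ 2 = c / 100 →
    ∀ τ u y : ℝ, |τ| ≤ 2 * T → |u| ≤ T → 2 ≤ y → ∀ K : ℕ, 1 ≤ K → 4 * 2 ^ K * y ≤ Real.log T / 4 →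
    Real.log T / 4 < 8 * 2 ^ K * y →
    Integrable (fun t => wt T c v τ t * (Real.log (4 + |t + u|) * cen T c y (K - 1) (t + u))) ∧
    ∫ t, wt T c v τ t * (Real.log (4 + |t + u|) * cen T c y (K - 1) (t + u)) ≤ T ^ (-(1 / 1000) : ℝ) * VV T c v := by
  obtain ⟨C, c1, T1, hC, h1⟩ := hfm
  obtain ⟨A, c2, T2, h2⟩ := hm4
  obtain ⟨C2, hC2, h3⟩ := log_M2
  -- the size of T
  obtain ⟨D, hD⟩ : ∃ D, D = |A| / 4 + C / 2 := ⟨_, rfl⟩
  have hD0 : 0 < D := by rw [hD]; positivity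
  have hev : ∀ᶠ T : ℝ in atTop, 256 * D ≤ Real.log (Real.log T) ∧
      √(C2 * C) * Real.log T ≤ T ^ (1 / 2000 : ℝ) := by
    have e1 : Tendsto (fun T : ℝ => Real.log (Real.log T)) atTop atTop :=
      Real.tendsto_log_atTop.comp Real.tendsto_log_atTop
    have e2 : (fun T : ℝ => √(C2 * C) * Real.log T) =o[atTop] fun T : ℝ => T ^ (1 / 2000 : ℝ) :=
      (isLittleO_log_rpow_atTop (by norm_num)).const_mul_left _
    have e3 := e2.bound (show (0:ℝ) < 1 by norm_num)
    filter_upwards [e1.eventually_ge_atTop (256 * D), e3, eventually_gt_atTop (0:ℝ)] with T a1 a2 a3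
    refine ⟨a1, ?_⟩
    rw [one_mul, Real.norm_eq_abs, Real.norm_of_nonneg (Real.rpow_nonneg a3.le _)] at a2
    exact (le_abs_self _).trans a2
  obtain ⟨T3, hT3⟩ := eventually_atTop.1 hev
  refine ⟨max (max c1 c2) 1, max (max T1 T2) (max T3 3), ?_⟩
  intro T hT c hc v hv τ u y hτ hu hy K hK hKy hKy2
  have g1 : T1 ≤ T := (le_max_left _ _).trans ((le_max_left _ _).trans hT)
  have g2 : T2 ≤ T := (le_max_right _ _).trans ((le_max_left _ _).trans hT)
  have g3 : T3 ≤ T := (le_max_left _ _).trans ((le_max_right _ _).trans hT)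
  have g4 : 3 ≤ T := (le_max_right _ _).trans ((le_max_right _ _).trans hT)
  have hT0 : 0 < T := by linarith
  have hL : 0 < Real.log T := Real.log_pos (by linarith)
  have hc1 : 1 ≤ c := (le_max_right _ _).trans hc.1
  have hV := one_le_VV (T := T) (c := c) (v := v) (by linarith)
  have hfm := h1 T g1 c (adm_mono ((le_max_left _ _).trans (le_max_left _ _)) hc) v hv τ
  have hm := h2 T g2 c (adm_mono ((le_max_right _ _).trans (le_max_left _ _)) hc) v hv τ
  have hl := h3 T u τ g4 hu hτ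
  obtain ⟨q1, q2⟩ := hT3 T g3
  have hw := wt_cont (T := T) (c := c) (v := v) (τ := τ) hT0
  have hw0 := wt_nonneg (T := T) (c := c) (v := v) (τ := τ) hT0
  have hW : 0 < WW T := Real.rpow_pos_of_pos hT0 _
  have hPc : Continuous (fun t => PW (WW T) (t - τ)) := by
    unfold PW
    have hpi := Real.pi_pos
    apply Continuous.div continuous_const (by fun_prop)
    intro t
    positivity
  have hRc : Continuous (fun t => ‖RR T c v t‖ ^ 2) := by
    apply Continuous.pow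
    apply Continuous.norm
    unfold RR
    refine continuous_finsetSum _ fun n hn => ?_
    apply continuous_const.mul
    apply Continuous.const_cpow (by fun_prop)
    left
    have : 1 ≤ n := (Finset.mem_Icc.mp hn).1
    have : n ≠ 0 := by omega
    exact_mod_cast this
  -- resonator
  have hR : M2 (fun t => PW (WW T) (t - τ)) (fun t => ‖RR T c v t‖ ^ 2) (Real.exp (|A| * c / 2) * VV T c v) := by
    have e : ∀ t, PW (WW T) (t - τ) * (‖RR T c v t‖ ^ 2) ^ 2 = PW (WW T) (t - τ) * ‖RR T c v t‖ ^ 4 := fun t => by ring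
    refine ⟨hRc, fun t => sq_nonneg _, ?_, ?_⟩
    · simp_rw [e]
      exact hm.1
    · simp_rw [e]
      refine hm.2.trans ?_
      rw [mul_pow, ← Real.exp_nat_mul]
      apply mul_le_mul_of_nonneg_right _ (sq_nonneg _)
      rw [Real.exp_le_exp]
      have := mul_le_mul_of_nonneg_right (le_abs_self A) (show 0 ≤ c by linarith)
      push_cast
      linarith
  have hRl := hR.mul hPc (fun t => (PW_pos hW _).le) hl (by positivity) (by positivity)
  obtain ⟨B, hB⟩ : ∃ B, B = √(Real.exp (|A| * c / 2) * VV T c v * (C2 * Real.log T ^ 2)) := ⟨_, rfl⟩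
  have hB0 : 0 < B := by rw [hB]; positivity
  have hB2 : B ^ 2 = Real.exp (|A| * c / 2) * VV T c v * (C2 * Real.log T ^ 2) := by
    rw [hB, Real.sq_sqrt (by positivity)]
  have hlog : M2 (wt T c v τ) (fun t => Real.log (4 + |t + u|)) B := by
    have e : ∀ t, wt T c v τ t * Real.log (4 + |t + u|) ^ 2 =
        PW (WW T) (t - τ) * (‖RR T c v t‖ ^ 2 * Real.log (4 + |t + u|) ^ 2) := fun t => by unfold wt; ring
    refine ⟨?_, fun t => Real.log_nonneg (by linarith [abs_nonneg (t + u)]), ?_, ?_⟩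
    · apply Continuous.log (by fun_prop)
      intro t
      have := abs_nonneg (t + u)
      linarith
    · simp_rw [e]
      exact hRl.1
    · simp_rw [e]
      rw [hB2]
      exact hRl.2
  -- the centre
  have hpow : (2:ℝ) ^ K = 2 * 2 ^ (K - 1) := by
    rw [← pow_succ']
    congr 1
    omega
  have hp1 : (1:ℝ) ≤ 2 ^ (K - 1) := one_le_pow₀ (by norm_num)
  have hcen : M2 (wt T c v τ) (fun t => cen T c y (K - 1) (t + u)) (amp C T c v (4 * 2 ^ (K - 1) * y)) :=
    D_M2 hC g4 (by rw [hpow] at hKy; nlinarith) (hfm u _ hτ (by linarith) (by nlinarith) (by rw [hpow] at hKy; nlinarith))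
  have hfin := hlog.mul hw hw0 hcen hB0 (amp_pos _ hC (by linarith))
  refine ⟨hfin.1, hfin.2.trans ?_⟩
  -- the numbers
  have hloglog : 0 < Real.log (Real.log T) := lt_of_lt_of_le (by positivity) q1
  have hcL : D * c ≤ Real.log T / 4096 := by
    have h4 := hc.2
    have h5 : c * (256 * D) ≤ c * Real.log (Real.log T) := mul_le_mul_of_nonneg_left q1 (by linarith)
    linarith
  have hsc : √c ≤ c := by
    rw [Real.sqrt_le_left (by linarith)]
    nlinarith
  have hamp : amp C T c v (4 * 2 ^ (K - 1) * y) ≤ √(C * Real.exp (C * √c) * VV T c v) * Real.exp (-(Real.log T / 512)) := by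
    unfold amp
    apply mul_le_mul_of_nonneg_left _ (Real.sqrt_nonneg _)
    rw [Real.exp_le_exp]
    rw [hpow] at hKy2
    linarith
  have hprod : B * √(C * Real.exp (C * √c) * VV T c v) = √(C2 * C) * Real.log T * VV T c v * Real.exp (|A| * c / 4 + C * √c / 2) := by
    rw [hB, ← Real.sqrt_mul (by positivity)]
    have e1 : Real.exp (|A| * c / 2) * VV T c v * (C2 * Real.log T ^ 2) * (C * Real.exp (C * √c) * VV T c v) =
        (C2 * C) * (Real.log T * VV T c v * Real.exp (|A| * c / 4 + C * √c / 2)) ^ 2 := by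
      rw [mul_pow (Real.log T * VV T c v), ← Real.exp_nat_mul]
      have e2 : Real.exp ((2 : ℕ) * (|A| * c / 4 + C * √c / 2)) = Real.exp (|A| * c / 2) * Real.exp (C * √c) := by
        rw [← Real.exp_add]
        congr 1
        push_cast
        ring
      rw [e2]
      ring
    rw [e1, Real.sqrt_mul (by positivity), Real.sqrt_sq (by positivity)]
    ring
  have hexp : Real.exp (|A| * c / 4 + C * √c / 2) ≤ Real.exp (Real.log T / 4096) := by
    rw [Real.exp_le_exp]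
    have h4 : C * √c / 2 ≤ C * c / 2 := by
      have := mul_le_mul_of_nonneg_left hsc hC.le
      linarith
    have h5 : |A| * c / 4 + C * c / 2 = D * c := by rw [hD]; ring
    linarith
  have hrp : ∀ a : ℝ, Real.exp (a * Real.log T) = T ^ a := fun a => by
    rw [Real.rpow_def_of_pos hT0, mul_comm]
  calc B * amp C T c v (4 * 2 ^ (K - 1) * y) ≤ B * (√(C * Real.exp (C * √c) * VV T c v) * Real.exp (-(Real.log T / 512))) :=
        mul_le_mul_of_nonneg_left hamp hB0.le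
    _ = (√(C2 * C) * Real.log T) * VV T c v * Real.exp (|A| * c / 4 + C * √c / 2) * Real.exp (-(Real.log T / 512)) := by
        rw [← mul_assoc, hprod]
    _ ≤ T ^ (1 / 2000 : ℝ) * VV T c v * Real.exp (Real.log T / 4096) * Real.exp (-(Real.log T / 512)) := by
        apply mul_le_mul_of_nonneg_right _ (Real.exp_pos _).le
        apply mul_le_mul _ hexp (Real.exp_pos _).le (by positivity)
        exact mul_le_mul_of_nonneg_right q2 (by linarith)
    _ = T ^ (1 / 2000 + 1 / 4096 - 1 / 512 : ℝ) * VV T c v := by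
        have e3 : Real.exp (Real.log T / 4096) = T ^ (1 / 4096 : ℝ) := by
          rw [← hrp]
          congr 1
          ring
        have e4 : Real.exp (-(Real.log T / 512)) = T ^ (-(1 / 512) : ℝ) := by
          rw [← hrp]
          congr 1
          ring
        rw [e3, e4, sub_eq_add_neg, Real.rpow_add hT0, Real.rpow_add hT0]
        ring
    _ ≤ T ^ (-(1 / 1000) : ℝ) * VV T c v := by
        apply mul_le_mul_of_nonneg_right _ (by linarith)
        exact Real.rpow_le_rpow_of_exponent_le (by linarith) (by norm_num)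

end Pool.Agent.Helper49.UG
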