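import Mathlib

/-!
# UG: weighted second moments: Cauchy-Schwarz and circle means
-/

set_option autoImplicit false
open MeasureTheory Set Filter Topology

namespace Pool.Agent.Helper49.UG

/-- second moment of a nonnegative continuous function with the weight `w` -/
structure M2 (w f : ℝ → ℝ) (A : ℝ) : Prop where
  cont : Continuous f
  nonneg : ∀ t, 0 ≤ f t
  int : Integrable (fun t => w t * f t ^ 2)
  le : ∫ t, w t * f t ^ 2 ≤ A ^ 2

/-- Cauchy-Schwarz -/
theorem M2.mul {w f g : ℝ → ℝ} {A B : ℝ} (hw : Continuous w) (hw0 : ∀ t, 0 ≤ w t) (hf : M2 w f A) (hg : M2 w g B)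
    (hA : 0 < A) (hB : 0 < B) : Integrable (fun t => w t * (f t * g t)) ∧ ∫ t, w t * (f t * g t) ≤ A * B := by
  have hint : Integrable (fun t => w t * (f t * g t)) := by
    refine (hf.int.add hg.int).mono' ?_ ?_
    · exact (hw.mul (hf.cont.mul hg.cont)).aestronglyMeasurable
    · refine Eventually.of_forall fun t => ?_
      have h1 := hf.nonneg t
      have h2 := hg.nonneg t
      have h3 := hw0 t
      rw [Real.norm_of_nonneg (by positivity)]
      simp only [Pi.add_apply]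
      rw [← mul_add]
      apply mul_le_mul_of_nonneg_left _ h3
      nlinarith [sq_nonneg (f t - g t), sq_nonneg (f t), sq_nonneg (g t)]
  refine ⟨hint, ?_⟩
  -- 2 f g ≤ (B/A) f² + (A/B) g²
  have h1 : ∫ t, w t * (f t * g t) ≤ ∫ t, ((B / (2 * A)) * (w t * f t ^ 2) + (A / (2 * B)) * (w t * g t ^ 2)) := by
    refine integral_mono hint ((hf.int.const_mul _).add (hg.int.const_mul _)) fun t => ?_
    have h3 := hw0 t
    have h4 : f t * g t ≤ B / (2 * A) * f t ^ 2 + A / (2 * B) * g t ^ 2 := by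
      have h5 : B / (2 * A) * f t ^ 2 + A / (2 * B) * g t ^ 2 - f t * g t = (B * f t - A * g t) ^ 2 / (2 * A * B) := by
        field_simp
        ring
      have h6 : 0 ≤ (B * f t - A * g t) ^ 2 / (2 * A * B) := by positivity
      linarith
    calc w t * (f t * g t) ≤ w t * (B / (2 * A) * f t ^ 2 + A / (2 * B) * g t ^ 2) := mul_le_mul_of_nonneg_left h4 h3
      _ = _ := by ring
  rw [integral_add (hf.int.const_mul _) (hg.int.const_mul _), integral_const_mul, integral_const_mul] at h1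
  have h2 : B / (2 * A) * ∫ t, w t * f t ^ 2 ≤ B / (2 * A) * A ^ 2 := mul_le_mul_of_nonneg_left hf.le (by positivity)
  have h3 : A / (2 * B) * ∫ t, w t * g t ^ 2 ≤ A / (2 * B) * B ^ 2 := mul_le_mul_of_nonneg_left hg.le (by positivity)
  have h4 : B / (2 * A) * A ^ 2 + A / (2 * B) * B ^ 2 = A * B := by
    field_simp
    ring
  linarith

/-- sum of two -/
theorem M2.add {w f g : ℝ → ℝ} {A B : ℝ} (hw : Continuous w) (hw0 : ∀ t, 0 ≤ w t) (hf : M2 w f A) (hg : M2 w g B)
    (hA : 0 < A) (hB : 0 < B) : M2 w (fun t => f t + g t) (A + B) := by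
  obtain ⟨h1, h2⟩ := hf.mul hw hw0 hg hA hB
  have e : ∀ t, w t * (f t + g t) ^ 2 = (w t * f t ^ 2 + w t * g t ^ 2) + 2 * (w t * (f t * g t)) := fun t => by ring
  have i1 : Integrable (fun t => w t * f t ^ 2 + w t * g t ^ 2) := hf.int.add hg.int
  have i2 : Integrable (fun t => 2 * (w t * (f t * g t))) := h1.const_mul 2
  refine ⟨hf.cont.add hg.cont, fun t => add_nonneg (hf.nonneg t) (hg.nonneg t), ?_, ?_⟩
  · simp_rw [e]
    exact i1.add i2
  · simp_rw [e]
    rw [integral_add i1 i2, integral_add hf.int hg.int, integral_const_mul]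
    have h3 := hf.le
    have h4 := hg.le
    nlinarith

theorem M2.smul {w f : ℝ → ℝ} {A c : ℝ} (hc : 0 ≤ c) (hf : M2 w f A) : M2 w (fun t => c * f t) (c * A) := by
  have e : ∀ t, w t * (c * f t) ^ 2 = c ^ 2 * (w t * f t ^ 2) := fun t => by ring
  refine ⟨continuous_const.mul hf.cont, fun t => mul_nonneg hc (hf.nonneg t), ?_, ?_⟩
  · simp_rw [e]
    exact hf.int.const_mul _
  · simp_rw [e]
    rw [integral_const_mul, mul_pow]
    exact mul_le_mul_of_nonneg_left hf.le (sq_nonneg c)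

theorem M2.mono {w f : ℝ → ℝ} {A B : ℝ} (hA : 0 ≤ A) (hAB : A ≤ B) (hf : M2 w f A) : M2 w f B :=
  ⟨hf.cont, hf.nonneg, hf.int, hf.le.trans (pow_le_pow_left₀ hA hAB 2)⟩

/-- circle means -/
theorem M2.circ {w : ℝ → ℝ} {h : ℝ → ℝ → ℝ} {A : ℝ} (hw : Continuous w) (hw0 : ∀ t, 0 ≤ w t)
    (hc : Continuous (fun p : ℝ × ℝ => h p.1 p.2)) (hA : 0 ≤ A) (hh : ∀ φ, M2 w (h φ) A) :
    M2 w (fun t => (2 * Real.pi)⁻¹ * ∫ φ in (0:ℝ)..(2 * Real.pi), h φ t) A := by
  have hpi : 0 < 2 * Real.pi := by positivity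
  set ν : Measure ℝ := volume.restrict (Ioc 0 (2 * Real.pi)) with hν
  have : IsFiniteMeasure ν := by rw [hν]; infer_instance
  have hF : Continuous (fun p : ℝ × ℝ => w p.2 * h p.1 p.2 ^ 2) := (hw.comp continuous_snd).mul (hc.pow 2)
  have hprod : Integrable (fun p : ℝ × ℝ => w p.2 * h p.1 p.2 ^ 2) (ν.prod volume) := by
    rw [integrable_prod_iff hF.aestronglyMeasurable]
    refine ⟨Eventually.of_forall fun φ => (hh φ).int, ?_⟩
    have hb : ∀ φ, ‖∫ t, ‖w t * h φ t ^ 2‖‖ ≤ A ^ 2 := by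
      intro φ
      have e : ∀ t, ‖w t * h φ t ^ 2‖ = w t * h φ t ^ 2 := fun t =>
        Real.norm_of_nonneg (mul_nonneg (hw0 t) (sq_nonneg _))
      simp_rw [e]
      rw [Real.norm_of_nonneg (integral_nonneg fun t => mul_nonneg (hw0 t) (sq_nonneg _))]
      exact (hh φ).le
    refine Integrable.mono' (integrable_const (A ^ 2)) ?_ (Eventually.of_forall hb)
    exact hF.norm.aestronglyMeasurable.integral_prod_right'
  -- Jensen
  have hcφ : ∀ t, Continuous fun φ => h φ t := fun t => hc.comp (Continuous.prodMk_left t)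
  have hJ : ∀ t, ((2 * Real.pi)⁻¹ * ∫ φ in (0:ℝ)..(2 * Real.pi), h φ t) ^ 2 ≤
      (2 * Real.pi)⁻¹ * ∫ φ in (0:ℝ)..(2 * Real.pi), h φ t ^ 2 := by
    intro t
    obtain ⟨m, hm⟩ : ∃ m, m = (2 * Real.pi)⁻¹ * ∫ φ in (0:ℝ)..(2 * Real.pi), h φ t := ⟨_, rfl⟩
    have h1 : 0 ≤ ∫ φ in (0:ℝ)..(2 * Real.pi), (h φ t - m) ^ 2 :=
      intervalIntegral.integral_nonneg hpi.le fun φ _ => sq_nonneg _
    have h2 : ∫ φ in (0:ℝ)..(2 * Real.pi), (h φ t - m) ^ 2 =
        (∫ φ in (0:ℝ)..(2 * Real.pi), h φ t ^ 2) - 2 * m * (∫ φ in (0:ℝ)..(2 * Real.pi), h φ t) + m ^ 2 * (2 * Real.pi) := by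
      have e : ∀ φ, (h φ t - m) ^ 2 = (h φ t ^ 2 - 2 * m * h φ t) + m ^ 2 := fun φ => by ring
      simp_rw [e]
      have i1 : IntervalIntegrable (fun φ => h φ t ^ 2) volume 0 (2 * Real.pi) := ((hcφ t).pow 2).intervalIntegrable _ _
      have i2 : IntervalIntegrable (fun φ => 2 * m * h φ t) volume 0 (2 * Real.pi) :=
        (continuous_const.mul (hcφ t)).intervalIntegrable _ _
      have i3 : IntervalIntegrable (fun φ => h φ t ^ 2 - 2 * m * h φ t) volume 0 (2 * Real.pi) := i1.sub i2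
      rw [intervalIntegral.integral_add i3 intervalIntegrable_const, intervalIntegral.integral_sub i1 i2,
        intervalIntegral.integral_const_mul, intervalIntegral.integral_const, smul_eq_mul, sub_zero]
      ring
    have h3 : ∫ φ in (0:ℝ)..(2 * Real.pi), h φ t = 2 * Real.pi * m := by
      rw [hm]
      field_simp
    rw [← hm]
    rw [h2, h3] at h1
    rw [← mul_le_mul_iff_right₀ hpi, ← mul_assoc, mul_inv_cancel₀ hpi.ne', one_mul]
    nlinarith
  have hmc : Continuous fun t => (2 * Real.pi)⁻¹ * ∫ φ in (0:ℝ)..(2 * Real.pi), h φ t := by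
    apply continuous_const.mul
    apply intervalIntegral.continuous_parametric_intervalIntegral_of_continuous'
    exact hc.comp continuous_swap
  have hmaj : Integrable (fun t => (2 * Real.pi)⁻¹ * ∫ φ in (0:ℝ)..(2 * Real.pi), w t * h φ t ^ 2) := by
    apply Integrable.const_mul
    have := hprod.integral_prod_right
    refine this.congr (Eventually.of_forall fun t => ?_)
    simp only
    rw [intervalIntegral.integral_of_le hpi.le]
  have hle : ∀ t, w t * ((2 * Real.pi)⁻¹ * ∫ φ in (0:ℝ)..(2 * Real.pi), h φ t) ^ 2 ≤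
      (2 * Real.pi)⁻¹ * ∫ φ in (0:ℝ)..(2 * Real.pi), w t * h φ t ^ 2 := by
    intro t
    rw [intervalIntegral.integral_const_mul]
    calc w t * ((2 * Real.pi)⁻¹ * ∫ φ in (0:ℝ)..(2 * Real.pi), h φ t) ^ 2 ≤
        w t * ((2 * Real.pi)⁻¹ * ∫ φ in (0:ℝ)..(2 * Real.pi), h φ t ^ 2) := mul_le_mul_of_nonneg_left (hJ t) (hw0 t)
      _ = _ := by ring
  have hint : Integrable (fun t => w t * ((2 * Real.pi)⁻¹ * ∫ φ in (0:ℝ)..(2 * Real.pi), h φ t) ^ 2) := by
    refine hmaj.mono' (hw.mul (hmc.pow 2)).aestronglyMeasurable (Eventually.of_forall fun t => ?_)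
    rw [Real.norm_of_nonneg (mul_nonneg (hw0 t) (sq_nonneg _))]
    exact hle t
  refine ⟨hmc, fun t => ?_, hint, ?_⟩
  · apply mul_nonneg (by positivity)
    exact intervalIntegral.integral_nonneg hpi.le fun φ _ => (hh φ).nonneg t
  · calc ∫ t, w t * ((2 * Real.pi)⁻¹ * ∫ φ in (0:ℝ)..(2 * Real.pi), h φ t) ^ 2 ≤
        ∫ t, (2 * Real.pi)⁻¹ * ∫ φ in (0:ℝ)..(2 * Real.pi), w t * h φ t ^ 2 := integral_mono hint hmaj hle
      _ = (2 * Real.pi)⁻¹ * ∫ t, ∫ φ, w t * h φ t ^ 2 ∂ν := by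
          rw [integral_const_mul]
          congr 1
          refine integral_congr_ae (Eventually.of_forall fun t => ?_)
          simp only
          rw [intervalIntegral.integral_of_le hpi.le]
      _ = (2 * Real.pi)⁻¹ * ∫ φ, (∫ t, w t * h φ t ^ 2) ∂ν := by
          congr 1
          rw [integral_integral_swap]
          exact hprod.swap
      _ ≤ (2 * Real.pi)⁻¹ * ∫ φ, A ^ 2 ∂ν := by
          apply mul_le_mul_of_nonneg_left _ (by positivity)
          exact integral_mono hprod.integral_prod_left (integrable_const _) fun φ => (hh φ).le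
      _ = A ^ 2 := by
          rw [integral_const, hν]
          simp [Real.pi_pos.le]
          field_simp

end Pool.Agent.Helper49.UG
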