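import Pool.Agent.Helper57.ED.Def

/-!
# UG: Jensen's formula for a function close to one
-/

set_option autoImplicit false
open Complex Set MeasureTheory Filter Topology Metric
open Pool.Agent.Helper57.Zeta

namespace Pool.Agent.Helper49.UG

lemma order_ne_top_of {F : ℂ → ℂ} {c : ℂ} {R : ℝ} (hF : AnalyticOnNhd ℂ F (closedBall c |R|)) (hc : F c ≠ 0)
    {u : ℂ} (hu : u ∈ closedBall c |R|) : analyticOrderAt F u ≠ ⊤ := by
  have hc' : c ∈ closedBall c |R| := mem_closedBall_self (abs_nonneg R)
  apply hF.analyticOrderAt_ne_top_of_isPreconnected (convex_closedBall c |R|).isPreconnected hc' hu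
  rw [(hF c hc').analyticOrderAt_eq_zero.mpr hc]
  exact ENat.zero_ne_top

lemma divisor_of {F : ℂ → ℂ} {c : ℂ} {R : ℝ} (hF : AnalyticOnNhd ℂ F (closedBall c |R|)) (hc : F c ≠ 0)
    {u : ℂ} (hu : u ∈ closedBall c |R|) :
    MeromorphicOn.divisor F (closedBall c |R|) u = (analyticOrderNatAt F u : ℤ) := by
  rw [MeromorphicOn.AnalyticOnNhd.divisor_apply hF hu, ← Nat.cast_analyticOrderNatAt (order_ne_top_of hF hc hu)]
  rfl

/-- **Jensen, for a function close to one at the centre** -/
theorem jen_near_one {F : ℂ → ℂ} {c : ℂ} {r R : ℝ} (hr : 0 < r) (hrR : r < R)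
    (hF : AnalyticOnNhd ℂ F (closedBall c R)) (hc : ‖F c - 1‖ ≤ 1 / 2)
    (Z : Finset ℂ) (m : ℂ → ℝ) (hZ : ∀ ρ ∈ Z, ‖ρ - c‖ ≤ r ∧ m ρ ≤ (analyticOrderNatAt F ρ : ℝ)) :
    (∑ ρ ∈ Z, m ρ) * Real.log (R / r) ≤ Real.circleAverage (fun z => ‖F z - 1‖) c R + 2 * ‖F c - 1‖ := by
  have hR : 0 < R := hr.trans hrR
  have hFc : 1 / 2 ≤ ‖F c‖ := by
    have h1 : ‖(1:ℂ)‖ ≤ ‖F c‖ + ‖F c - 1‖ := by
      have h2 := norm_sub_le (F c) (F c - 1)
      have h3 : F c - (F c - 1) = 1 := by ring
      rw [h3] at h2
      exact h2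
    rw [norm_one] at h1
    linarith
  have hFc0 : F c ≠ 0 := by
    intro h
    rw [h, norm_zero] at hFc
    linarith
  have hF' : AnalyticOnNhd ℂ F (closedBall c |R|) := by rwa [abs_of_pos hR]
  have hJ := hF'.circleAverage_log_norm hR.ne' hFc0
  -- the zeros
  have hfin := (MeromorphicOn.divisor F (closedBall c |R|)).finiteSupport (isCompact_closedBall c |R|)
  have hsum : (∑ ρ ∈ Z, m ρ) * Real.log (R / r) ≤
      ∑ᶠ u, (MeromorphicOn.divisor F (closedBall c |R|) u : ℝ) * Real.log (R * ‖c - u‖⁻¹) := by
    have hnn : ∀ u : ℂ, 0 ≤ (MeromorphicOn.divisor F (closedBall c |R|) u : ℝ) * Real.log (R * ‖c - u‖⁻¹) := by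
      intro u
      by_cases hu : u ∈ closedBall c |R|
      · rw [divisor_of hF' hFc0 hu]
        apply mul_nonneg
        · push_cast
          positivity
        · by_cases hcu : c = u
          · subst hcu
            simp
          · apply Real.log_nonneg
            have h1 : 0 < ‖c - u‖ := norm_pos_iff.mpr (sub_ne_zero.mpr hcu)
            rw [mem_closedBall, dist_eq_norm, abs_of_pos hR, norm_sub_rev] at hu
            rw [← div_eq_mul_inv, le_div_iff₀ h1, one_mul]
            exact hu
      · have h0 : MeromorphicOn.divisor F (closedBall c |R|) u = 0 :=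
          Function.locallyFinsuppWithin.apply_eq_zero_of_notMem _ hu
        rw [h0]
        simp
    classical
    rw [finsum_eq_sum_of_support_subset (s := hfin.toFinset ∪ Z)]
    · have hlog : 0 ≤ Real.log (R / r) := Real.log_nonneg (by rw [le_div_iff₀ hr, one_mul]; exact hrR.le)
      calc (∑ ρ ∈ Z, m ρ) * Real.log (R / r) = ∑ ρ ∈ Z, m ρ * Real.log (R / r) := Finset.sum_mul _ _ _
        _ ≤ ∑ ρ ∈ Z, (MeromorphicOn.divisor F (closedBall c |R|) ρ : ℝ) * Real.log (R * ‖c - ρ‖⁻¹) := by
            refine Finset.sum_le_sum fun ρ hρ => ?_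
            obtain ⟨h1, h2⟩ := hZ ρ hρ
            have hmem : ρ ∈ closedBall c |R| := by
              rw [mem_closedBall, dist_eq_norm, abs_of_pos hR]
              exact h1.trans hrR.le
            rw [divisor_of hF' hFc0 hmem]
            push_cast
            by_cases hne : ρ = c
            · subst hne
              have h3 : analyticOrderNatAt F ρ = 0 := by
                unfold analyticOrderNatAt
                rw [(hF' ρ hmem).analyticOrderAt_eq_zero.mpr hFc0]
                rfl
              rw [h3] at h2 ⊢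
              have h4 : m ρ * Real.log (R / r) ≤ 0 := mul_nonpos_of_nonpos_of_nonneg (by exact_mod_cast h2) hlog
              simpa using h4
            · have h3 : 0 < ‖c - ρ‖ := norm_pos_iff.mpr (sub_ne_zero.mpr (Ne.symm hne))
              have h4 : Real.log (R / r) ≤ Real.log (R * ‖c - ρ‖⁻¹) := by
                apply Real.log_le_log (by positivity)
                rw [div_eq_mul_inv]
                apply mul_le_mul_of_nonneg_left _ hR.le
                rw [norm_sub_rev] at h1
                exact inv_anti₀ h3 h1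
              calc m ρ * Real.log (R / r) ≤ (analyticOrderNatAt F ρ : ℝ) * Real.log (R / r) :=
                    mul_le_mul_of_nonneg_right h2 hlog
                _ ≤ _ := mul_le_mul_of_nonneg_left h4 (Nat.cast_nonneg _)
        _ ≤ _ := Finset.sum_le_sum_of_subset_of_nonneg Finset.subset_union_right fun i _ _ => hnn i
    · intro u hu
      rw [Function.mem_support] at hu
      rw [Finset.coe_union, Set.mem_union]
      left
      rw [Finset.mem_coe, Set.Finite.mem_toFinset, Function.mem_support]
      intro h0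
      apply hu
      rw [h0]
      simp
  -- the circle average
  have hcont : ContinuousOn (fun z => ‖F z - 1‖) (sphere c |R|) :=
    ((hF'.continuousOn.mono sphere_subset_closedBall).sub continuousOn_const).norm
  have havg : Real.circleAverage (fun z => Real.log ‖F z‖) c R ≤ Real.circleAverage (fun z => ‖F z - 1‖) c R := by
    apply Real.circleAverage_mono
    · exact (hF'.mono sphere_subset_closedBall).meromorphicOn.circleIntegrable_log_norm
    · exact hcont.circleIntegrable'
    · intro z _
      have h1 : ‖F z‖ ≤ 1 + ‖F z - 1‖ := by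
        have h2 := norm_add_le (1:ℂ) (F z - 1)
        rw [add_sub_cancel, norm_one] at h2
        exact h2
      rcases eq_or_ne (F z) 0 with h0 | h0
      · simp only [h0, norm_zero, Real.log_zero]
        exact norm_nonneg _
      · have h3 := Real.log_le_sub_one_of_pos (norm_pos_iff.mpr h0)
        linarith
  have hlogc : -(2 * ‖F c - 1‖) ≤ Real.log ‖F c‖ := by
    have h1 : 1 - ‖F c - 1‖ ≤ ‖F c‖ := by
      have h2 := norm_sub_le (F c) (F c - 1)
      have h3 : F c - (F c - 1) = 1 := by ring
      rw [h3, norm_one] at h2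
      linarith
    have hx0 : 0 ≤ ‖F c - 1‖ := norm_nonneg _
    set x := ‖F c - 1‖ with hx
    have h4 : 0 < 1 - x := by linarith
    have h5 := Real.one_sub_inv_le_log_of_pos h4
    have h6 : Real.log (1 - x) ≤ Real.log ‖F c‖ := Real.log_le_log h4 h1
    have h7 : -(2 * x) ≤ 1 - (1 - x)⁻¹ := by
      rw [neg_le_sub_iff_le_add, ← sub_le_iff_le_add', inv_eq_one_div, ← sub_nonneg]
      have h8 : 1 + 2 * x - 1 / (1 - x) = x * (1 - 2 * x) / (1 - x) := by
        field_simp
        ring
      have h9 : 0 ≤ x * (1 - 2 * x) / (1 - x) := by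
        apply div_nonneg (mul_nonneg hx0 (by linarith)) h4.le
      linarith
    linarith
  linarith [hJ, hsum, havg, hlogc]

end Pool.Agent.Helper49.UG
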